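import Pool.Agent.H390R2.LP.Iface2

/-!
# Products of linear forms: statements

The noncommutative linear programming bound (product theorem `IIDw` of the starting files) with the
metric `log (1 + |x - y|)` on the line. Every `S_...` is a `Prop` that has been or will be proved in
another module.
-/

open MeasureTheory Finset Filter
open scoped Topology

namespace Pool.Agent.W9.PL

open Pool.Agent.H390R2.LP

/-- **PL-MET.** concave functions of the distance on `{0, …, q - 1}` are squared Euclidean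
distances -/
def S_met : Prop := ∀ (q : ℕ) (ψ : ℕ → ℝ), ψ 0 = 0 → (∀ j, ψ j ≤ ψ (j + 1)) →
    (∀ j, ψ (j + 2) - ψ (j + 1) ≤ ψ (j + 1) - ψ j) →
    ∃ (I : Type) (_ : Fintype I) (f : I → Fin q → ℝ), ∀ x y : Fin q,
      ∑ i, (f i x - f i y) ^ 2 = ψ ((x : ℤ) - (y : ℤ)).natAbs

/-- **PL-EN.** one-site data from `T = B Bᵀ`, with the energy in kernel form (from the theorem
`Pool.Agent.W338.GP.site`, ancilla `Unit`) -/
def S_en : Prop := ∀ (N : ℕ) (J : Type) [Fintype J] [DecidableEq J] (B : Fin N → J → ℝ) (n : ℝ)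
    (D : Fin N → ℝ), Fintype.card J ≤ N →
    (∀ c : J → ℝ, (∀ i, ∑ j, (∑ x, B x i * B x j) * c j = 0) → c = 0) →
    n = ∑ x, ∑ y, (∑ j, B x j * B y j) ^ 2 → 0 < n → (∀ x, 0 < D x) →
    (∀ x, ∑ y, (∑ j, B x j * B y j) ^ 2 ≤ n * D x) →
    ∃ s : Site (Fin N × Unit) (Fin N),
      s.S ≤ ∑ i, Real.negMulLog ((∑ j, (∑ x, B x i * B x j) ^ 2) / n) ∧
      -(∑ x, (∑ y, (∑ j, B x j * B y j) ^ 2) / n * Real.log (D x)) ≤ s.h ∧
      ∀ (I : Type) [Fintype I] (f : I → Fin N → ℝ),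
        s.E f = (∑ x, ∑ y, (∑ j, B x j * B y j) ^ 2 * ∑ i, (f i x - f i y) ^ 2) / n

/-! ### The grid and the modes -/

/-- grid points `-m, …, m` with mesh `1 / m` -/
noncomputable def gx (m : ℕ) (l : Fin (2 * m ^ 2 + 1)) : ℝ := ((l : ℝ) - (m : ℝ) ^ 2) / m

/-- angles -/
noncomputable def th (m : ℕ) (l : Fin (2 * m ^ 2 + 1)) : ℝ := Real.arctan (gx m l)

/-- Cauchy weights -/
noncomputable def cw (m : ℕ) (l : Fin (2 * m ^ 2 + 1)) : ℝ := 1 / (m * (Real.pi * (1 + gx m l ^ 2)))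

/-- modes `1, √2 cos 2θ, √2 sin 2θ, √2 cos 4θ, √2 sin 4θ, …` -/
noncomputable def md (i : ℕ) (θ : ℝ) : ℝ :=
  if i = 0 then 1 else if i % 2 = 1 then √2 * Real.cos (((i : ℝ) + 1) * θ)
  else √2 * Real.sin ((i : ℝ) * θ)

/-- **PL-RS.** Riemann sums on the whole line -/
def S_rs : Prop := ∀ f : ℝ → ℝ, Continuous f → (∃ C, ∀ x, |f x| ≤ C / (1 + x ^ 2)) →
    Tendsto (fun m : ℕ => (1 / (m : ℝ)) * ∑ l : Fin (2 * m ^ 2 + 1), f (gx m l)) atTop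
      (𝓝 (∫ x, f x))

/-- **PL-ORTH.** the modes are orthonormal in the limit -/
def S_orth : Prop := ∀ i j : ℕ,
    Tendsto (fun m : ℕ => ∑ l, cw m l * (md i (th m l) * md j (th m l))) atTop
      (𝓝 (if i = j then 1 else 0))

/-- **PL-LOG.** a trigonometric majorant of `log |sin u|` -/
def S_log : Prop := ∀ r : ℝ, 0 < r → r < 1 → ∀ η : ℝ, 0 < η → ∃ J₀ : ℕ, ∀ J ≥ J₀, ∀ u : ℝ,
    1 / 2 * Real.log (Real.sin u ^ 2 + (1 - r) ^ 2 / (4 * r)) ≤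
      -(1 / 2) * Real.log (4 * r) - ∑ j ∈ Icc 1 J, r ^ j / j * Real.cos (2 * j * u) + η

/-- correlations of the (even) sequence `t` on `{-K, …, K}` -/
noncomputable def cc (K : ℕ) (t : ℕ → ℝ) (j : ℕ) : ℝ :=
  ∑ k ∈ Icc (-(K : ℤ)) (K - j), t k.natAbs * t (k + j).natAbs

/-- the value of the state with eigenvalues `t |k|`, `|k| ≤ K` -/
noncomputable def FF (K : ℕ) (t : ℕ → ℝ) : ℝ :=
  -Real.log (2 * Real.pi) - ∑ j ∈ Icc 1 (2 * K), cc K t j / j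
    - ∑ k ∈ Icc (-(K : ℤ)) K, t k.natAbs ^ 2 * Real.log (t k.natAbs ^ 2)

/-- **PL-STATE.** one-site states with value at most `FF K t + η` -/
def S_state : Prop := ∀ (K : ℕ) (t : ℕ → ℝ), (∀ k, 0 < t k) →
    ∑ k ∈ Icc (-(K : ℤ)) K, t k.natAbs ^ 2 = 1 → ∀ η : ℝ, 0 < η →
    ∃ (q : ℕ) (s : Site (Fin q × Unit) (Fin q)), ∀ (I : Type) [Fintype I] (f : I → Fin q → ℝ),
      (∀ x y : Fin q, ∑ i, (f i x - f i y) ^ 2 =
        Real.log (1 + (((x : ℤ) - (y : ℤ)).natAbs : ℝ))) →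
      s.E f - s.h + s.S ≤ FF K t + η

/-- **PL-NUM.** -/
def S_num : Prop := ∃ (K : ℕ) (t : ℕ → ℝ), (∀ k, 0 < t k) ∧
    ∑ k ∈ Icc (-(K : ℤ)) K, t k.natAbs ^ 2 = 1 ∧ FF K t < -(1 / 2) * Real.log 59

/-! ### Lattices -/

/-- **PL-COVER.** random translates of a lattice as a random subset of a grid -/
def S_cover : Prop := ∀ (n q : ℕ) (g : Matrix (Fin n) (Fin n) ℝ) (b : ℝ), g.det ≠ 0 → 0 < b →
    (∀ z : Fin n → ℤ, z ≠ 0 → ∃ k, b ≤ |(g.mulVec fun j => (z j : ℝ)) k|) →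
    ∃ wt : Finset (Fin n → Fin q) → ℝ, (∀ S, 0 ≤ wt S) ∧
      (∀ x, ∑ S ∈ univ.filter (fun S : Finset (Fin n → Fin q) => x ∈ S), wt S = 1) ∧
      (∀ S, wt S ≠ 0 → ∀ x ∈ S, ∀ y ∈ S, x ≠ y → ∃ z : Fin n → ℤ, z ≠ 0 ∧
        ∀ k, |(g.mulVec fun j => (z j : ℝ)) k| ≤
          b * ((((x k : ℤ) - (y k : ℤ)).natAbs : ℝ) + 1)) ∧
      ∑ S, wt S = |g.det| / b ^ n

/-- **PL-LAT.** the bound for lattices from a one-site state (from `IIDw` and `S_cover`) -/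
def S_lat : Prop := ∀ (Ω : Type) [Fintype Ω] [DecidableEq Ω] (q : ℕ) (s : Site Ω (Fin q))
    (I : Type) [Fintype I] (f : I → Fin q → ℝ),
    (∀ x y : Fin q, ∑ i, (f i x - f i y) ^ 2 =
      Real.log (1 + (((x : ℤ) - (y : ℤ)).natAbs : ℝ))) →
    ∀ ε : ℝ, 0 < ε → ∃ n₀ : ℕ, ∀ n ≥ n₀, ∀ g : Matrix (Fin n) (Fin n) ℝ, g.det ≠ 0 →
      ∀ ν : ℝ, (∀ z : Fin n → ℤ, z ≠ 0 → ν ≤ |∏ i, (g.mulVec fun j => (z j : ℝ)) i|) →
        ν ≤ |g.det| * Real.exp (n * (s.E f - s.h + s.S + ε))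

/-- **Main statement.** -/
def S_main : Prop := ∃ n₀ : ℕ, ∀ n ≥ n₀, ∀ g : Matrix (Fin n) (Fin n) ℝ, g.det ≠ 0 →
    ∃ x : Fin n → ℤ, x ≠ 0 ∧ |∏ i, ∑ j, g i j * (x j : ℝ)| < |g.det| / √59 ^ n

end Pool.Agent.W9.PL
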