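import Pool.Agent.W9.PL.State
import Pool.Agent.W340.PL.En
import Pool.Agent.W762.PLR.RS
import Pool.Agent.W52.PL.Orth
import Pool.Agent.W52.PL.Log
import Pool.Agent.W362.PL.Cover
import Pool.Agent.W52.PL.Lat
import Pool.Agent.W363.PL.Met
import Pool.Agent.H390R2.LP.Main

/-! Assembly. -/

open Finset

namespace Pool.Agent.W9.PL

open Pool.Agent.H390R2.LP

theorem state' : S_state :=
  state Pool.Agent.W340.PL.En.en (Pool.Agent.W52.PL.Orth.orth Pool.Agent.W762.PLR.rs)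
    Pool.Agent.W52.PL.Log.slog

theorem lat' : S_lat := Pool.Agent.W52.PL.Lat.lat iidw Pool.Agent.W362.PL.cover

/-- the bound for products of linear forms from a sequence `t` -/
theorem bound (K : ℕ) (t : ℕ → ℝ) (ht : ∀ k, 0 < t k)
    (hs : ∑ k ∈ Icc (-(K : ℤ)) K, t k.natAbs ^ 2 = 1) {c : ℝ} (hc : FF K t < c) :
    ∃ n₀ : ℕ, ∀ n ≥ n₀, ∀ g : Matrix (Fin n) (Fin n) ℝ, g.det ≠ 0 →
      ∃ x : Fin n → ℤ, x ≠ 0 ∧ |∏ i, ∑ j, g i j * (x j : ℝ)| < |g.det| * Real.exp (n * c) := by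
  set η : ℝ := (c - FF K t) / 3 with hη
  have hη0 : 0 < η := by rw [hη]; linarith
  obtain ⟨q, s, hs'⟩ := state' K t ht hs η hη0
  have hmono : ∀ j : ℕ, Real.log (1 + (j : ℝ)) ≤ Real.log (1 + ((j + 1 : ℕ) : ℝ)) := by
    intro j
    apply Real.log_le_log (by positivity)
    push_cast
    linarith
  have hconc : ∀ j : ℕ, Real.log (1 + ((j + 2 : ℕ) : ℝ)) - Real.log (1 + ((j + 1 : ℕ) : ℝ)) ≤
      Real.log (1 + ((j + 1 : ℕ) : ℝ)) - Real.log (1 + (j : ℝ)) := by
    intro j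
    have h1 : Real.log ((1 + ((j + 2 : ℕ) : ℝ)) * (1 + (j : ℝ))) ≤
        Real.log ((1 + ((j + 1 : ℕ) : ℝ)) * (1 + ((j + 1 : ℕ) : ℝ))) := by
      apply Real.log_le_log (by positivity)
      push_cast
      nlinarith
    rw [Real.log_mul (by positivity) (by positivity), Real.log_mul (by positivity)
      (by positivity)] at h1
    linarith
  obtain ⟨I, hI, f, hf⟩ := Pool.Agent.W363.PL.met q (fun j => Real.log (1 + (j : ℝ)))
    (by simp) hmono hconc
  have hval := hs' I f hf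
  obtain ⟨n₀, hn₀⟩ := lat' (Fin q × Unit) q s I f hf η hη0
  refine ⟨max n₀ 1, fun n hn g hg => ?_⟩
  by_contra hcon
  push Not at hcon
  have hn1 : (1 : ℝ) ≤ n := by exact_mod_cast le_trans (le_max_right _ _) hn
  have hd : 0 < |g.det| := abs_pos.mpr hg
  have h1 := hn₀ n (le_trans (le_max_left _ _) hn) g hg (|g.det| * Real.exp (n * c))
    (fun z hz => hcon z hz)
  have h2 : |g.det| * Real.exp (n * (s.E f - s.h + s.S + η)) < |g.det| * Real.exp (n * c) := by
    apply mul_lt_mul_of_pos_left _ hd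
    apply Real.exp_lt_exp.mpr
    have : s.E f - s.h + s.S + η < c := by
      have h3 : FF K t + η + η < c := by
        have : c - FF K t = 3 * η := by rw [hη]; ring
        linarith
      linarith
    have hn0 : (0 : ℝ) < n := by linarith
    exact mul_lt_mul_of_pos_left this hn0
  exact absurd h1 (not_le.mpr h2)

theorem main (hnum : S_num) : S_main := by
  obtain ⟨K, t, ht, hs, hF⟩ := hnum
  obtain ⟨n₀, h⟩ := bound K t ht hs hF
  refine ⟨n₀, fun n hn g hg => ?_⟩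
  obtain ⟨x, hx, hlt⟩ := h n hn g hg
  refine ⟨x, hx, hlt.trans_eq ?_⟩
  rw [div_eq_mul_inv]
  congr 1
  have h59 : √59 = Real.exp (1 / 2 * Real.log 59) := by
    rw [Real.sqrt_eq_rpow, Real.rpow_def_of_pos (by norm_num)]
    ring_nf
  rw [h59, ← Real.exp_nat_mul, ← Real.exp_neg]
  congr 1
  ring

end Pool.Agent.W9.PL
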