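import Pool.Agent.W9.PL.StateC

/-! The one-site states: proof of `S_state`. -/

open MeasureTheory Finset Filter
open scoped Topology

namespace Pool.Agent.W9.PL

open Pool.Agent.H390R2.LP

theorem cc_zero {K : ℕ} (t : ℕ → ℝ) {j : ℕ} (hj : 2 * K < j) : cc K t j = 0 := by
  unfold cc
  rw [Finset.Icc_eq_empty (by omega), Finset.sum_empty]

theorem exists_r (K : ℕ) (t : ℕ → ℝ) {η : ℝ} (hη : 0 < η) : ∃ r : ℝ, 0 < r ∧ r < 1 ∧
    -(1 / 2) * Real.log (4 * r) - ∑ j ∈ Icc 1 (2 * K), r ^ j / j * cc K t j <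
      -Real.log 2 - ∑ j ∈ Icc 1 (2 * K), cc K t j / j + η := by
  have hc : ContinuousAt (fun r : ℝ => -(1 / 2) * Real.log (4 * r) -
      ∑ j ∈ Icc 1 (2 * K), r ^ j / j * cc K t j) 1 := by
    refine ContinuousAt.sub ?_ ?_
    · refine ContinuousAt.mul continuousAt_const ?_
      exact ContinuousAt.log (by fun_prop) (by norm_num)
    · fun_prop
  have h1 : -(1 / 2) * Real.log (4 * 1) - ∑ j ∈ Icc 1 (2 * K), (1 : ℝ) ^ j / j * cc K t j =
      -Real.log 2 - ∑ j ∈ Icc 1 (2 * K), cc K t j / j := by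
    have h4 : Real.log (4 * 1) = 2 * Real.log 2 := by
      rw [mul_one, show (4 : ℝ) = 2 ^ 2 by norm_num, Real.log_pow]
      norm_num
    rw [h4]
    have : ∀ j : ℕ, (1 : ℝ) ^ j / j * cc K t j = cc K t j / j := by
      intro j; rw [one_pow]; ring
    simp only [this]
    ring
  have h2 : ∀ᶠ r : ℝ in 𝓝 1, -(1 / 2) * Real.log (4 * r) -
      ∑ j ∈ Icc 1 (2 * K), r ^ j / j * cc K t j <
      -Real.log 2 - ∑ j ∈ Icc 1 (2 * K), cc K t j / j + η := by
    refine hc.tendsto.eventually_lt_const ?_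
    rw [h1]
    linarith
  obtain ⟨d, hd0, hd⟩ := Metric.eventually_nhds_iff.mp h2
  refine ⟨1 - min (d / 2) (1 / 2), ?_, ?_, hd ?_⟩
  · have := min_le_right (d / 2) (1 / 2 : ℝ)
    linarith
  · have : 0 < min (d / 2) (1 / 2 : ℝ) := lt_min (by linarith) (by norm_num)
    linarith
  · rw [Real.dist_eq]
    have h3 : 0 < min (d / 2) (1 / 2 : ℝ) := lt_min (by linarith) (by norm_num)
    have h4 := min_le_left (d / 2) (1 / 2 : ℝ)
    rw [show 1 - min (d / 2) (1 / 2) - 1 = -min (d / 2) (1 / 2 : ℝ) by ring, abs_neg,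
      abs_of_pos h3]
    linarith

theorem ev_small {e δ : ℝ} (he : 0 < e) (hδ : 0 < δ) :
    ∀ᶠ m : ℕ in atTop, 1 / (δ * (m : ℝ) ^ 2) ≤ e := by
  have h1 : Tendsto (fun m : ℕ => δ * (m : ℝ) ^ 2) atTop atTop :=
    Tendsto.const_mul_atTop hδ ((tendsto_pow_atTop two_ne_zero).comp tendsto_natCast_atTop_atTop)
  filter_upwards [h1.eventually_ge_atTop (1 / e), h1.eventually_gt_atTop 0] with m hm hm0
  rw [div_le_iff₀ hm0]
  rw [div_le_iff₀ he] at hm
  linarith

theorem state (hen : S_en) (horth : S_orth) (hlog : S_log) : S_state := by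
  intro K t ht hs η hη
  obtain ⟨r, hr0, hr1, hr⟩ := exists_r K t (show 0 < η / 4 by linarith)
  obtain ⟨J₀, hJ₀⟩ := hlog r hr0 hr1 (η / 4) (by linarith)
  set J := max J₀ (2 * K) with hJ
  set δ := η / 4 with hδ
  have hδ0 : 0 < δ := by rw [hδ]; linarith
  have hJs : ∑ j ∈ Icc 1 J, r ^ j / j * cc K t j = ∑ j ∈ Icc 1 (2 * K), r ^ j / j * cc K t j := by
    symm
    refine Finset.sum_subset (Finset.Icc_subset_Icc le_rfl (le_max_right _ _)) ?_
    intro j hj hj'
    rw [mem_Icc] at hj hj'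
    rw [cc_zero t (by omega), mul_zero]
  have hlim := UU_lim K t ht horth hs r δ (η / 4) J
  rw [hJs] at hlim
  have hl1 : 1 / 2 * Real.log (1 + δ) ≤ η / 8 := by
    have := Real.log_le_sub_one_of_pos (show 0 < 1 + δ by linarith)
    rw [hδ] at *
    linarith
  have h2pi : Real.log (2 * Real.pi) = Real.log 2 + Real.log Real.pi :=
    Real.log_mul two_ne_zero Real.pi_pos.ne'
  have hlt : -Real.log Real.pi + 1 / 2 * Real.log (1 + δ) +
      (-(1 / 2) * Real.log (4 * r) + η / 4 - ∑ j ∈ Icc 1 (2 * K), r ^ j / j * cc K t j) -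
      ∑ k ∈ Icc (-(K : ℤ)) K, t k.natAbs ^ 2 * Real.log (t k.natAbs ^ 2) < FF K t + η := by
    unfold FF
    rw [h2pi]
    linarith
  set e : ℝ := (1 - r) ^ 2 / (4 * r) with he
  have he0 : 0 < e := by
    have : 0 < 1 - r := by linarith
    rw [he]; positivity
  have hn : Tendsto (nn K t) atTop (𝓝 1) := by
    have := lim_norm horth K t
    rwa [hs] at this
  have hk : Tendsto (kap K t) atTop (𝓝 1) := by
    have := kap_lim K t horth
    rwa [hs] at this
  obtain ⟨m, hU, hnd, hn0, hk0, hm, hmK, hme⟩ :=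
    ((hlim.eventually_lt_const hlt).and ((nondeg K t ht horth).and
      ((hn.eventually_const_lt one_pos).and ((hk.eventually_const_lt one_pos).and
        ((eventually_gt_atTop 0).and ((eventually_ge_atTop (K + 1)).and
          (ev_small he0 hδ0))))))).exists
  have hT : ∀ l l' : Fin (2 * m ^ 2 + 1), (∑ j, BB K t m l j * BB K t m l' j) ^ 2 =
      cw m l * cw m l' * DD K t (th m l - th m l') ^ 2 := T_sq K t ht m
  have hD : ∀ l, 0 < cw m l * (kap K t m / nn K t m) := fun l =>
    mul_pos (cw_pos hm l) (div_pos hk0 hn0)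
  obtain ⟨s, hS, hh, hE⟩ := hen (2 * m ^ 2 + 1) (Fin (2 * K + 1)) (BB K t m) (nn K t m)
    (fun l => cw m l * (kap K t m / nn K t m)) (by rw [Fintype.card_fin]; nlinarith) hnd
    (by unfold nn; exact sum_congr rfl fun l _ => sum_congr rfl fun l' _ => (hT l l').symm)
    hn0 hD (fun l => by
      rw [show nn K t m * (cw m l * (kap K t m / nn K t m)) = cw m l * kap K t m by
        field_simp]
      refine le_trans (le_of_eq ?_) (row_le K t ht m l)
      exact sum_congr rfl fun l' _ => hT l l')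
  refine ⟨2 * m ^ 2 + 1, s, fun I _ f hf => ?_⟩
  have hE' := hE I f
  simp only [hf] at hE'
  -- weights
  set w : Fin (2 * m ^ 2 + 1) → Fin (2 * m ^ 2 + 1) → ℝ := fun l l' =>
    cw m l * cw m l' * DD K t (th m l - th m l') ^ 2 with hw
  have hw0 : ∀ l l', 0 ≤ w l l' := fun l l' =>
    mul_nonneg (mul_nonneg (cw_nonneg m l) (cw_nonneg m l')) (sq_nonneg _)
  have hwsymm : ∀ l l', w l l' = w l' l := by
    intro l l'
    simp only [hw]
    have : DD K t (th m l' - th m l) = DD K t (th m l - th m l') := by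
      unfold DD
      refine sum_congr rfl fun k _ => ?_
      rw [← Real.cos_neg]
      congr 2
      ring
    rw [this]
    ring
  have hwsum : ∑ l, ∑ l', w l l' = nn K t m := rfl
  have hE2 : s.E f = (∑ l, ∑ l', w l l' *
      Real.log (1 + (((l : ℤ) - (l' : ℤ)).natAbs : ℝ))) / nn K t m := by
    rw [hE']
    congr 1
    exact sum_congr rfl fun l _ => sum_congr rfl fun l' _ => by rw [hT]
  have hh2 : -s.h ≤ (∑ l, ∑ l', w l l' * (1 / 2 * Real.log (cw m l) +
      1 / 2 * Real.log (cw m l'))) / nn K t m + Real.log (kap K t m / nn K t m) := by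
    have h1 : ∑ x, (∑ y, (∑ j, BB K t m x j * BB K t m y j) ^ 2) / nn K t m *
        Real.log (cw m x * (kap K t m / nn K t m)) =
        (∑ l, ∑ l', w l l' * (1 / 2 * Real.log (cw m l) +
      1 / 2 * Real.log (cw m l'))) / nn K t m + Real.log (kap K t m / nn K t m) := by
      have h2 : ∀ x, Real.log (cw m x * (kap K t m / nn K t m)) =
          Real.log (cw m x) + Real.log (kap K t m / nn K t m) := fun x =>
        Real.log_mul (cw_pos hm x).ne' (div_pos hk0 hn0).ne'
      simp only [h2, hT]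
      have h3 : ∑ l, ∑ l', w l l' * (1 / 2 * Real.log (cw m l) + 1 / 2 * Real.log (cw m l')) =
          ∑ l, (∑ l', w l l') * Real.log (cw m l) := by
        have h4 : ∑ l, ∑ l', w l l' * (1 / 2 * Real.log (cw m l')) =
            ∑ l, ∑ l', w l l' * (1 / 2 * Real.log (cw m l)) := by
          rw [sum_comm]
          exact sum_congr rfl fun l _ => sum_congr rfl fun l' _ => by rw [hwsymm]
        simp_rw [mul_add, sum_add_distrib]
        rw [h4, ← sum_add_distrib]
        refine sum_congr rfl fun l _ => ?_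
        rw [← sum_add_distrib, sum_mul]
        exact sum_congr rfl fun l' _ => by ring
      rw [h3]
      have h5 : ∑ x, (∑ y, w x y) / nn K t m * Real.log (kap K t m / nn K t m) =
          Real.log (kap K t m / nn K t m) := by
        rw [← sum_mul, ← sum_div, hwsum, div_self hn0.ne', one_mul]
      simp_rw [mul_add, sum_add_distrib]
      rw [h5, sum_div]
      congr 1
      exact sum_congr rfl fun l _ => by ring
    rw [← h1]
    linarith
  have hmain : (∑ l, ∑ l', w l l' * Real.log (1 + (((l : ℤ) - (l' : ℤ)).natAbs : ℝ))) +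
      (∑ l, ∑ l', w l l' * (1 / 2 * Real.log (cw m l) + 1 / 2 * Real.log (cw m l'))) ≤
      (-Real.log Real.pi + 1 / 2 * Real.log (1 + δ) - (1 / 2) * Real.log (4 * r) + η / 4) *
        nn K t m - ∑ j ∈ Icc 1 J, r ^ j / j *
      ∑ l, ∑ l', cw m l * cw m l' * (DD K t (th m l - th m l') ^ 2 *
        Real.cos (2 * j * (th m l - th m l'))) := by
    have h1 : ∀ l l', w l l' * Real.log (1 + (((l : ℤ) - (l' : ℤ)).natAbs : ℝ)) +
        w l l' * (1 / 2 * Real.log (cw m l) + 1 / 2 * Real.log (cw m l')) ≤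
        w l l' * (-Real.log Real.pi + 1 / 2 * Real.log (1 + δ) - (1 / 2) * Real.log (4 * r)
          + η / 4) - ∑ j ∈ Icc 1 J, r ^ j / j * (cw m l * cw m l' *
            (DD K t (th m l - th m l') ^ 2 * Real.cos (2 * j * (th m l - th m l')))) := by
      intro l l'
      have h2 := pt hm l l' he0 hδ0 hme
      have h3 := hJ₀ J (le_max_left _ _) (th m l - th m l')
      have h23 : Real.log (1 + (((l : ℤ) - (l' : ℤ)).natAbs : ℝ)) +
          (1 / 2 * Real.log (cw m l) + 1 / 2 * Real.log (cw m l')) ≤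
          -Real.log Real.pi + 1 / 2 * Real.log (1 + δ) + (-(1 / 2) * Real.log (4 * r) -
          ∑ j ∈ Icc 1 J, r ^ j / j * Real.cos (2 * j * (th m l - th m l')) + η / 4) := by
        linarith
      have h4 := mul_le_mul_of_nonneg_left h23 (hw0 l l')
      have h5 : w l l' * ∑ j ∈ Icc 1 J, r ^ j / j * Real.cos (2 * j * (th m l - th m l')) =
          ∑ j ∈ Icc 1 J, r ^ j / j * (cw m l * cw m l' *
            (DD K t (th m l - th m l') ^ 2 * Real.cos (2 * j * (th m l - th m l')))) := by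
        rw [mul_sum]
        exact sum_congr rfl fun j _ => by simp only [hw]; ring
      rw [← h5]
      linarith
    have h6 : ∑ l, ∑ l', (w l l' * (-Real.log Real.pi + 1 / 2 * Real.log (1 + δ) -
        (1 / 2) * Real.log (4 * r) + η / 4) - ∑ j ∈ Icc 1 J, r ^ j / j * (cw m l * cw m l' *
            (DD K t (th m l - th m l') ^ 2 * Real.cos (2 * j * (th m l - th m l'))))) =
        (-Real.log Real.pi + 1 / 2 * Real.log (1 + δ) - (1 / 2) * Real.log (4 * r) + η / 4) *
        nn K t m - ∑ j ∈ Icc 1 J, r ^ j / j *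
      ∑ l, ∑ l', cw m l * cw m l' * (DD K t (th m l - th m l') ^ 2 *
        Real.cos (2 * j * (th m l - th m l'))) := by
      simp_rw [sum_sub_distrib, ← sum_mul]
      rw [hwsum, mul_comm]
      congr 1
      simp_rw [mul_sum]
      have h7 : ∀ l : Fin (2 * m ^ 2 + 1), ∑ l', ∑ j ∈ Icc 1 J, r ^ j / (j : ℝ) *
          (cw m l * cw m l' * (DD K t (th m l - th m l') ^ 2 *
            Real.cos (2 * j * (th m l - th m l')))) = ∑ j ∈ Icc 1 J, ∑ l', r ^ j / (j : ℝ) *
          (cw m l * cw m l' * (DD K t (th m l - th m l') ^ 2 *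
            Real.cos (2 * j * (th m l - th m l')))) := fun l => sum_comm
      rw [sum_congr rfl fun l _ => h7 l, sum_comm]
    rw [← h6, ← sum_add_distrib]
    refine sum_le_sum fun l _ => ?_
    rw [← sum_add_distrib]
    exact sum_le_sum fun l' _ => h1 l l'
  have hdiv := div_le_div_of_nonneg_right hmain hn0.le
  rw [add_div, sub_div, mul_div_cancel_right₀ _ hn0.ne'] at hdiv
  have hfin : s.E f - s.h + s.S ≤ UU K t r δ (η / 4) J m := by
    unfold UU
    rw [hE2]
    linarith
  linarith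

end Pool.Agent.W9.PL
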