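import Pool.Agent.W9.PL.Defs

/-! Auxiliary lemmas for `S_state`. -/

open MeasureTheory Finset Filter
open scoped Topology

namespace Pool.Agent.W9.PL

open Pool.Agent.H390R2.LP

/-- the kernel in the angle -/
noncomputable def DD (K : ℕ) (t : ℕ → ℝ) (u : ℝ) : ℝ :=
  ∑ k ∈ Icc (-(K : ℤ)) K, t k.natAbs * Real.cos (2 * k * u)

theorem Icc_succ (K : ℕ) : Icc (-((K + 1 : ℕ) : ℤ)) ((K + 1 : ℕ) : ℤ) =
    insert (-((K : ℤ) + 1)) (insert ((K : ℤ) + 1) (Icc (-(K : ℤ)) K)) := by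
  ext k
  simp only [mem_Icc, mem_insert]
  push_cast
  omega

theorem sum_Icc_succ (K : ℕ) (F : ℤ → ℝ) :
    ∑ k ∈ Icc (-((K + 1 : ℕ) : ℤ)) ((K + 1 : ℕ) : ℤ), F k =
      F (-((K : ℤ) + 1)) + (F ((K : ℤ) + 1) + ∑ k ∈ Icc (-(K : ℤ)) K, F k) := by
  rw [Icc_succ, sum_insert, sum_insert]
  · simp
  · simp only [mem_insert, mem_Icc]
    omega

theorem natAbs_succ (K : ℕ) : ((K : ℤ) + 1).natAbs = K + 1 := by omega
theorem natAbs_neg_succ (K : ℕ) : (-((K : ℤ) + 1)).natAbs = K + 1 := by omega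

theorem ker (K : ℕ) (t : ℕ → ℝ) (θ φ : ℝ) :
    ∑ i ∈ range (2 * K + 1), t ((i + 1) / 2) * (md i θ * md i φ) = DD K t (θ - φ) := by
  unfold DD
  induction K with
  | zero => simp [md]
  | succ K ih =>
    rw [show 2 * (K + 1) + 1 = (2 * K + 1) + 1 + 1 by ring, sum_range_succ, sum_range_succ, ih,
      sum_Icc_succ, natAbs_succ, natAbs_neg_succ]
    have e1 : (2 * K + 1 + 1) / 2 = K + 1 := by omega
    have e2 : (2 * K + 1 + 1 + 1) / 2 = K + 1 := by omega
    have m1 : ∀ x, md (2 * K + 1) x = √2 * Real.cos (2 * (K + 1) * x) := by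
      intro x
      unfold md
      rw [if_neg (by omega), if_pos (by omega)]
      push_cast
      ring_nf
    have m2 : ∀ x, md (2 * K + 1 + 1) x = √2 * Real.sin (2 * (K + 1) * x) := by
      intro x
      unfold md
      rw [if_neg (by omega), if_neg (by omega)]
      push_cast
      ring_nf
    rw [e1, e2, m1, m1, m2, m2]
    push_cast
    have h2 : √2 * √2 = 2 := Real.mul_self_sqrt (by norm_num)
    have hc : Real.cos (2 * (K + 1) * (θ - φ)) = Real.cos (2 * (K + 1) * θ) *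
        Real.cos (2 * (K + 1) * φ) + Real.sin (2 * (K + 1) * θ) * Real.sin (2 * (K + 1) * φ) := by
      rw [mul_sub, Real.cos_sub]
    have hc' : Real.cos (2 * (-1 + -(K:ℝ)) * (θ - φ)) = Real.cos (2 * (K + 1) * (θ - φ)) := by
      rw [← Real.cos_neg]
      congr 1
      ring
    have hc'' : Real.cos (2 * (-((K:ℝ) + 1)) * (θ - φ)) = Real.cos (2 * (K + 1) * (θ - φ)) := by
      rw [← Real.cos_neg]
      congr 1
      ring
    rw [hc'', hc]
    linear_combination (t (K + 1) * (Real.cos (2 * (K + 1) * θ) *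
        Real.cos (2 * (K + 1) * φ) + Real.sin (2 * (K + 1) * θ) * Real.sin (2 * (K + 1) * φ))) * h2

/-- sums over the modes are sums over `-K, …, K` -/
theorem sum_modes (K : ℕ) (G : ℕ → ℝ) :
    ∑ i ∈ range (2 * K + 1), G ((i + 1) / 2) = ∑ k ∈ Icc (-(K : ℤ)) K, G k.natAbs := by
  induction K with
  | zero => simp
  | succ K ih =>
    rw [show 2 * (K + 1) + 1 = (2 * K + 1) + 1 + 1 by ring, sum_range_succ, sum_range_succ, ih,
      sum_Icc_succ, natAbs_succ, natAbs_neg_succ]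
    have e1 : (2 * K + 1 + 1) / 2 = K + 1 := by omega
    have e2 : (2 * K + 1 + 1 + 1) / 2 = K + 1 := by omega
    rw [e1, e2]
    ring

theorem sum_sin (K : ℕ) (t : ℕ → ℝ) (u : ℝ) :
    ∑ k ∈ Icc (-(K : ℤ)) K, t k.natAbs * Real.sin (2 * k * u) = 0 := by
  induction K with
  | zero => simp
  | succ K ih =>
    rw [sum_Icc_succ, ih, natAbs_succ, natAbs_neg_succ]
    push_cast
    rw [show (2 * (-((K:ℝ) + 1)) * u) = -(2 * ((K:ℝ) + 1) * u) by ring, Real.sin_neg]
    ring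

theorem DD_sq (K : ℕ) (t : ℕ → ℝ) (u : ℝ) : DD K t u ^ 2 =
    ∑ k ∈ Icc (-(K : ℤ)) K, ∑ l ∈ Icc (-(K : ℤ)) K,
      t k.natAbs * t l.natAbs * Real.cos (2 * ((k - l : ℤ) : ℝ) * u) := by
  have h : DD K t u ^ 2 = DD K t u ^ 2 +
      (∑ k ∈ Icc (-(K : ℤ)) K, t k.natAbs * Real.sin (2 * k * u)) ^ 2 := by
    rw [sum_sin]; ring
  rw [h, DD, sq, sq, sum_mul_sum, sum_mul_sum, ← sum_add_distrib]
  refine sum_congr rfl fun k _ => ?_
  rw [← sum_add_distrib]
  refine sum_congr rfl fun l _ => ?_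
  push_cast
  rw [show 2 * ((k : ℝ) - l) * u = 2 * k * u - 2 * l * u by ring, Real.cos_sub]
  ring

theorem DD_sq_cos (K : ℕ) (t : ℕ → ℝ) (j : ℕ) (u : ℝ) : DD K t u ^ 2 * Real.cos (2 * j * u) =
    ∑ k ∈ Icc (-(K : ℤ)) K, ∑ l ∈ Icc (-(K : ℤ)) K, t k.natAbs * t l.natAbs *
      (1 / 2 * (Real.cos (2 * ((k - l + j : ℤ) : ℝ) * u) +
        Real.cos (2 * ((k - l - j : ℤ) : ℝ) * u))) := by
  rw [DD_sq, sum_mul]
  refine sum_congr rfl fun k _ => ?_
  rw [sum_mul]
  refine sum_congr rfl fun l _ => ?_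
  push_cast
  have e1 : 2 * ((k : ℝ) - l + j) * u = 2 * (k - l) * u + 2 * j * u := by ring
  have e2 : 2 * ((k : ℝ) - l - j) * u = 2 * (k - l) * u - 2 * j * u := by ring
  rw [e1, e2, Real.cos_add, Real.cos_sub]
  ring

/-- first limits -/
theorem lim_cos (h : S_orth) (a : ℤ) :
    Tendsto (fun m : ℕ => ∑ l, cw m l * Real.cos (2 * a * th m l)) atTop
      (𝓝 (if a = 0 then 1 else 0)) := by
  by_cases ha : a = 0
  · subst ha
    have := h 0 0
    simpa [md] using this
  · rw [if_neg ha]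
    have h2 : (√2 : ℝ) ≠ 0 := by positivity
    have h1 := (h 0 (2 * a.natAbs - 1)).const_mul (√2)⁻¹
    rw [if_neg (by omega), mul_zero] at h1
    refine h1.congr fun m => ?_
    rw [mul_sum]
    refine sum_congr rfl fun l _ => ?_
    have e : md (2 * a.natAbs - 1) (th m l) = √2 * Real.cos (2 * a * th m l) := by
      unfold md
      rw [if_neg (by omega), if_pos (by omega)]
      congr 1
      have e1 : (((2 * a.natAbs - 1 : ℕ) : ℝ) + 1) = 2 * |(a : ℝ)| := by
        have : 1 ≤ 2 * a.natAbs := by omega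
        rw [Nat.cast_sub this]
        push_cast [Nat.cast_natAbs]
        ring
      rw [e1]
      rcases abs_cases (a : ℝ) with h' | h' <;> rw [h'.1]
      rw [← Real.cos_neg]
      congr 1
      ring
    rw [e]
    simp only [md, if_true]
    field_simp

theorem lim_sin (h : S_orth) (a : ℤ) :
    Tendsto (fun m : ℕ => ∑ l, cw m l * Real.sin (2 * a * th m l)) atTop (𝓝 0) := by
  by_cases ha : a = 0
  · subst ha
    simp
  · have h2 : (√2 : ℝ) ≠ 0 := by positivity
    have h1 := (h 0 (2 * a.natAbs)).const_mul ((√2)⁻¹ * (if 0 < a then 1 else -1))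
    rw [if_neg (show ¬ (0 = 2 * a.natAbs) by omega), mul_zero] at h1
    refine h1.congr fun m => ?_
    rw [mul_sum]
    refine sum_congr rfl fun l _ => ?_
    have e : md (2 * a.natAbs) (th m l) = √2 * ((if 0 < a then 1 else -1) *
        Real.sin (2 * a * th m l)) := by
      unfold md
      rw [if_neg (by omega), if_neg (by omega)]
      congr 1
      have e1 : (((2 * a.natAbs : ℕ) : ℝ)) = 2 * |(a : ℝ)| := by
        push_cast [Nat.cast_natAbs]
        ring
      rw [e1]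
      split_ifs with h'
      · rw [abs_of_pos (by exact_mod_cast h'), one_mul]
      · have : (a : ℝ) < 0 := by exact_mod_cast (by omega : a < 0)
        rw [abs_of_neg this, show 2 * -(a : ℝ) * th m l = -(2 * a * th m l) by ring, Real.sin_neg]
        ring
    rw [e]
    simp only [md, if_true]
    split_ifs <;> field_simp

/-- the double sums -/
theorem lim_double (h : S_orth) (a : ℤ) :
    Tendsto (fun m : ℕ => ∑ l, ∑ l', cw m l * cw m l' *
      Real.cos (2 * a * (th m l - th m l'))) atTop (𝓝 (if a = 0 then 1 else 0)) := by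
  have h1 := ((lim_cos h a).mul (lim_cos h a)).add ((lim_sin h a).mul (lim_sin h a))
  have e : (if a = 0 then (1 : ℝ) else 0) * (if a = 0 then 1 else 0) + 0 * 0 =
      if a = 0 then 1 else 0 := by split_ifs <;> simp
  rw [e] at h1
  refine h1.congr fun m => ?_
  rw [sum_mul_sum, sum_mul_sum, ← sum_add_distrib]
  refine sum_congr rfl fun l _ => ?_
  rw [← sum_add_distrib]
  refine sum_congr rfl fun l' _ => ?_
  rw [mul_sub, Real.cos_sub]
  ring

theorem swap4 {α β : Type} [Fintype β] (A : Finset α) (c : α → α → ℝ) (W : β → β → ℝ)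
    (F : α → α → β → β → ℝ) :
    ∑ k ∈ A, ∑ l ∈ A, c k l * ∑ p, ∑ p', W p p' * F k l p p' =
      ∑ p, ∑ p', W p p' * ∑ k ∈ A, ∑ l ∈ A, c k l * F k l p p' := by
  have h1 : ∑ k ∈ A, ∑ l ∈ A, c k l * ∑ p, ∑ p', W p p' * F k l p p' =
      ∑ x ∈ A ×ˢ A, ∑ y : β × β, c x.1 x.2 * (W y.1 y.2 * F x.1 x.2 y.1 y.2) := by
    rw [← sum_product' A A (fun k l => c k l * ∑ p, ∑ p', W p p' * F k l p p')]
    refine sum_congr rfl fun x _ => ?_
    rw [Fintype.sum_prod_type, mul_sum]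
    refine sum_congr rfl fun p _ => ?_
    rw [mul_sum]
  have h2 : ∑ p, ∑ p', W p p' * ∑ k ∈ A, ∑ l ∈ A, c k l * F k l p p' =
      ∑ y : β × β, ∑ x ∈ A ×ˢ A, c x.1 x.2 * (W y.1 y.2 * F x.1 x.2 y.1 y.2) := by
    rw [Fintype.sum_prod_type]
    refine sum_congr rfl fun p _ => sum_congr rfl fun p' _ => ?_
    rw [← sum_product' A A (fun k l => c k l * F k l p p'), mul_sum]
    exact sum_congr rfl fun x _ => by ring
  rw [h1, h2, sum_comm]

/-- the limit of the normalisation -/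
theorem lim_norm (h : S_orth) (K : ℕ) (t : ℕ → ℝ) :
    Tendsto (fun m : ℕ => ∑ l, ∑ l', cw m l * cw m l' * DD K t (th m l - th m l') ^ 2) atTop
      (𝓝 (∑ k ∈ Icc (-(K : ℤ)) K, t k.natAbs ^ 2)) := by
  have h1 : Tendsto (fun m : ℕ => ∑ k ∈ Icc (-(K : ℤ)) K, ∑ l ∈ Icc (-(K : ℤ)) K,
      t k.natAbs * t l.natAbs * ∑ p, ∑ p', cw m p * cw m p' *
        Real.cos (2 * ((k - l : ℤ) : ℝ) * (th m p - th m p'))) atTop
      (𝓝 (∑ k ∈ Icc (-(K : ℤ)) K, ∑ l ∈ Icc (-(K : ℤ)) K,
        t k.natAbs * t l.natAbs * (if k - l = 0 then 1 else 0))) :=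
    tendsto_finsetSum _ fun k _ => tendsto_finsetSum _ fun l _ =>
      (lim_double h (k - l)).const_mul _
  have e : (∑ k ∈ Icc (-(K : ℤ)) K, ∑ l ∈ Icc (-(K : ℤ)) K,
        t k.natAbs * t l.natAbs * (if k - l = 0 then (1:ℝ) else 0)) =
      ∑ k ∈ Icc (-(K : ℤ)) K, t k.natAbs ^ 2 := by
    refine sum_congr rfl fun k hk => ?_
    simp only [sub_eq_zero, mul_ite, mul_one, mul_zero]
    rw [sum_ite_eq, if_pos hk, sq]
  rw [e] at h1
  refine h1.congr fun m => ?_
  simp_rw [DD_sq]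
  exact swap4 _ _ _ _

theorem lim_norm_cos (h : S_orth) (K : ℕ) (t : ℕ → ℝ) (j : ℕ) :
    Tendsto (fun m : ℕ => ∑ l, ∑ l', cw m l * cw m l' * (DD K t (th m l - th m l') ^ 2 *
      Real.cos (2 * j * (th m l - th m l')))) atTop (𝓝 (cc K t j)) := by
  have h1 : Tendsto (fun m : ℕ => ∑ k ∈ Icc (-(K : ℤ)) K, ∑ l ∈ Icc (-(K : ℤ)) K,
      t k.natAbs * t l.natAbs * ∑ p, ∑ p', cw m p * cw m p' *
        (1 / 2 * (Real.cos (2 * ((k - l + j : ℤ) : ℝ) * (th m p - th m p')) +
        Real.cos (2 * ((k - l - j : ℤ) : ℝ) * (th m p - th m p'))))) atTop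
      (𝓝 (∑ k ∈ Icc (-(K : ℤ)) K, ∑ l ∈ Icc (-(K : ℤ)) K,
        t k.natAbs * t l.natAbs * (1 / 2 * ((if k - l + j = 0 then 1 else 0) +
          (if k - l - j = 0 then 1 else 0))))) := by
    refine tendsto_finsetSum _ fun k _ => tendsto_finsetSum _ fun l _ => Tendsto.const_mul _ ?_
    refine (((lim_double h (k - l + j)).add (lim_double h (k - l - j))).const_mul (1 / 2)).congr
      fun m => ?_
    rw [← sum_add_distrib, mul_sum]
    refine sum_congr rfl fun p _ => ?_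
    rw [← sum_add_distrib, mul_sum]
    refine sum_congr rfl fun p' _ => ?_
    ring
  have e : (∑ k ∈ Icc (-(K : ℤ)) K, ∑ l ∈ Icc (-(K : ℤ)) K,
        t k.natAbs * t l.natAbs * (1 / 2 * ((if k - l + j = 0 then (1:ℝ) else 0) +
          (if k - l - j = 0 then 1 else 0)))) = cc K t j := by
    have e1 : (∑ k ∈ Icc (-(K : ℤ)) K, ∑ l ∈ Icc (-(K : ℤ)) K,
        t k.natAbs * t l.natAbs * (if k - l + j = 0 then (1:ℝ) else 0)) = cc K t j := by
      unfold cc
      have e2 : ∀ k ∈ Icc (-(K : ℤ)) K, (∑ l ∈ Icc (-(K : ℤ)) K,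
        t k.natAbs * t l.natAbs * (if k - l + j = 0 then (1:ℝ) else 0)) =
          if k ≤ K - j then t k.natAbs * t (k + j).natAbs else 0 := by
        intro k hk
        rw [mem_Icc] at hk
        split_ifs with hkj
        · rw [Finset.sum_eq_single (k + j)]
          · rw [if_pos (by ring), mul_one]
          · intro l _ hl
            rw [if_neg (by intro h; apply hl; linarith), mul_zero]
          · intro hn
            exfalso
            apply hn
            rw [mem_Icc]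
            constructor <;> omega
        · refine Finset.sum_eq_zero fun l hl => ?_
          rw [mem_Icc] at hl
          rw [if_neg (by intro h; apply hkj; linarith [hl.2]), mul_zero]
      rw [sum_congr rfl e2, ← sum_filter]
      refine sum_congr ?_ fun _ _ => rfl
      ext k
      simp only [mem_filter, mem_Icc]
      omega
    have e3 : (∑ k ∈ Icc (-(K : ℤ)) K, ∑ l ∈ Icc (-(K : ℤ)) K,
        t k.natAbs * t l.natAbs * (if k - l - j = 0 then (1:ℝ) else 0)) = cc K t j := by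
      rw [← e1, sum_comm]
      refine sum_congr rfl fun k _ => sum_congr rfl fun l _ => ?_
      rw [mul_comm (t l.natAbs)]
      congr 1
      by_cases hh : l - k - (j:ℤ) = 0
      · rw [if_pos hh, if_pos (by linarith)]
      · rw [if_neg hh, if_neg (by intro h'; apply hh; linarith)]
    calc _ = ∑ k ∈ Icc (-(K : ℤ)) K, ∑ l ∈ Icc (-(K : ℤ)) K,
        (1 / 2 * (t k.natAbs * t l.natAbs * (if k - l + j = 0 then (1:ℝ) else 0)) +
          1 / 2 * (t k.natAbs * t l.natAbs * (if k - l - j = 0 then (1:ℝ) else 0))) :=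
          sum_congr rfl fun k _ => sum_congr rfl fun l _ => by ring
      _ = 1 / 2 * (∑ k ∈ Icc (-(K : ℤ)) K, ∑ l ∈ Icc (-(K : ℤ)) K,
        t k.natAbs * t l.natAbs * (if k - l + j = 0 then (1:ℝ) else 0)) +
        1 / 2 * (∑ k ∈ Icc (-(K : ℤ)) K, ∑ l ∈ Icc (-(K : ℤ)) K,
        t k.natAbs * t l.natAbs * (if k - l - j = 0 then (1:ℝ) else 0)) := by
          simp_rw [sum_add_distrib, ← mul_sum]
      _ = cc K t j := by rw [e1, e3]; ring
  rw [e] at h1
  refine h1.congr fun m => ?_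
  simp_rw [DD_sq_cos]
  exact swap4 _ _ _ _

end Pool.Agent.W9.PL
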