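import Pool.Agent.W9.PL.StateA

/-! Pointwise estimates and the limits of the data of the discretised states. -/

open MeasureTheory Finset Filter
open scoped Topology

namespace Pool.Agent.W9.PL

open Pool.Agent.H390R2.LP

theorem sin_arctan_sub (x y : ℝ) : Real.sin (Real.arctan x - Real.arctan y) ^ 2 =
    (x - y) ^ 2 / ((1 + x ^ 2) * (1 + y ^ 2)) := by
  have hx : 0 < 1 + x ^ 2 := by positivity
  have hy : 0 < 1 + y ^ 2 := by positivity
  rw [Real.sin_sub, Real.sin_arctan, Real.sin_arctan, Real.cos_arctan, Real.cos_arctan]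
  have e1 : x / √(1 + x ^ 2) * (1 / √(1 + y ^ 2)) - 1 / √(1 + x ^ 2) * (y / √(1 + y ^ 2)) =
      (x - y) / (√(1 + x ^ 2) * √(1 + y ^ 2)) := by
    have := Real.sqrt_pos.mpr hx
    have := Real.sqrt_pos.mpr hy
    field_simp
  rw [e1, div_pow, mul_pow, Real.sq_sqrt hx.le, Real.sq_sqrt hy.le]

theorem cw_pos {m : ℕ} (hm : 0 < m) (l : Fin (2 * m ^ 2 + 1)) : 0 < cw m l := by
  unfold cw
  have : (0 : ℝ) < m := by exact_mod_cast hm
  have := Real.pi_pos
  positivity

theorem cw_nonneg (m : ℕ) (l : Fin (2 * m ^ 2 + 1)) : 0 ≤ cw m l := by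
  unfold cw
  have := Real.pi_pos
  positivity

theorem pt {m : ℕ} (hm : 0 < m) (l l' : Fin (2 * m ^ 2 + 1)) {e δ : ℝ} (he : 0 < e) (hδ : 0 < δ)
    (hm2 : 1 / (δ * (m : ℝ) ^ 2) ≤ e) :
    Real.log (1 + (((l : ℤ) - (l' : ℤ)).natAbs : ℝ)) +
      (1 / 2 * Real.log (cw m l) + 1 / 2 * Real.log (cw m l')) ≤
      -Real.log Real.pi + 1 / 2 * Real.log (1 + δ) +
        1 / 2 * Real.log (Real.sin (th m l - th m l') ^ 2 + e) := by
  have hm' : (0 : ℝ) < m := by exact_mod_cast hm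
  have hpi := Real.pi_pos
  set x := gx m l with hx
  set y := gx m l' with hy
  have hx1 : 1 ≤ 1 + x ^ 2 := by nlinarith [sq_nonneg x]
  have hy1 : 1 ≤ 1 + y ^ 2 := by nlinarith [sq_nonneg y]
  have hx0 : 0 < 1 + x ^ 2 := by linarith
  have hy0 : 0 < 1 + y ^ 2 := by linarith
  have e1 : ((((l : ℤ) - (l' : ℤ)).natAbs : ℕ) : ℝ) = m * |x - y| := by
    rw [hx, hy]
    unfold gx
    rw [← sub_div, abs_div, abs_of_pos hm', Nat.cast_natAbs]
    push_cast
    rw [mul_div_cancel₀ _ hm'.ne']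
    congr 1
    ring
  rw [e1]
  have hsin : Real.sin (th m l - th m l') ^ 2 = (x - y) ^ 2 / ((1 + x ^ 2) * (1 + y ^ 2)) :=
    sin_arctan_sub x y
  have hcx : Real.log (cw m l) = -(Real.log m + (Real.log Real.pi + Real.log (1 + x ^ 2))) := by
    unfold cw
    rw [← hx, one_div, Real.log_inv, Real.log_mul hm'.ne' (by positivity),
      Real.log_mul hpi.ne' hx0.ne']
  have hcy : Real.log (cw m l') = -(Real.log m + (Real.log Real.pi + Real.log (1 + y ^ 2))) := by
    unfold cw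
    rw [← hy, one_div, Real.log_inv, Real.log_mul hm'.ne' (by positivity),
      Real.log_mul hpi.ne' hy0.ne']
  rw [hcx, hcy, hsin]
  have hA : 0 < 1 + m * |x - y| := by positivity
  have hs0 : 0 < (x - y) ^ 2 / ((1 + x ^ 2) * (1 + y ^ 2)) + e := by positivity
  have key : (1 + m * |x - y|) ^ 2 / ((m : ℝ) ^ 2 * ((1 + x ^ 2) * (1 + y ^ 2))) ≤
      (1 + δ) * ((x - y) ^ 2 / ((1 + x ^ 2) * (1 + y ^ 2)) + e) := by
    have hP : 1 ≤ (1 + x ^ 2) * (1 + y ^ 2) := by nlinarith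
    have hP0 : 0 < (1 + x ^ 2) * (1 + y ^ 2) := by positivity
    set P := (1 + x ^ 2) * (1 + y ^ 2) with hPd
    rw [div_le_iff₀ (by positivity)]
    have h2 : (1 + δ) * ((x - y) ^ 2 / P + e) * ((m : ℝ) ^ 2 * P) =
        (1 + δ) * (m ^ 2 * (x - y) ^ 2) + (1 + δ) * (e * m ^ 2) * P := by
      field_simp
    rw [h2]
    have h3 : 1 / δ ≤ e * m ^ 2 := by
      rw [div_le_iff₀ hδ]
      rw [div_le_iff₀ (by positivity)] at hm2
      linarith
    have h4 : (1 + δ) * (1 / δ) ≤ (1 + δ) * (e * m ^ 2) * P := by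
      have h5 : (1 + δ) * (1 / δ) ≤ (1 + δ) * (e * m ^ 2) := by gcongr
      have h6 : (1 + δ) * (e * (m:ℝ) ^ 2) * 1 ≤ (1 + δ) * (e * m ^ 2) * P := by gcongr
      linarith
    have h7 : |x - y| ^ 2 = (x - y) ^ 2 := sq_abs _
    have h8 : (1 + m * |x - y|) ^ 2 ≤ (1 + δ) * (m ^ 2 * (x - y) ^ 2) + (1 + δ) * (1 / δ) := by
      have h9 : (1 + δ) * (m ^ 2 * (x - y) ^ 2) + (1 + δ) * (1 / δ) - (1 + m * |x - y|) ^ 2 =
          δ * (m * |x - y| - 1 / δ) ^ 2 := by
        rw [← h7]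
        field_simp
        ring
      have h10 : 0 ≤ δ * (m * |x - y| - 1 / δ) ^ 2 := by positivity
      linarith
    linarith
  have h1 := Real.log_le_log (by positivity) key
  rw [Real.log_div (by positivity) (by positivity), Real.log_pow, Real.log_mul (by positivity)
    (by positivity), Real.log_pow, Real.log_mul hx0.ne' hy0.ne', Real.log_mul (by positivity)
    hs0.ne'] at h1
  push_cast at h1
  linarith

/-! ### the discretised factors -/

variable (K : ℕ) (t : ℕ → ℝ)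

/-- the matrix `B` -/
noncomputable def BB (m : ℕ) (l : Fin (2 * m ^ 2 + 1)) (j : Fin (2 * K + 1)) : ℝ :=
  √(cw m l) * (√(t (((j : ℕ) + 1) / 2)) * md j (th m l))

variable (ht : ∀ k, 0 < t k)
include ht

theorem T_eq (m : ℕ) (l l' : Fin (2 * m ^ 2 + 1)) :
    ∑ j, BB K t m l j * BB K t m l' j = √(cw m l) * √(cw m l') * DD K t (th m l - th m l') := by
  rw [← ker, ← Fin.sum_univ_eq_sum_range (fun i => t ((i + 1) / 2) *
    (md i (th m l) * md i (th m l'))), mul_sum]
  refine sum_congr rfl fun j _ => ?_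
  unfold BB
  have := Real.mul_self_sqrt (ht (((j : ℕ) + 1) / 2)).le
  linear_combination (√(cw m l) * √(cw m l') * md j (th m l) * md j (th m l')) * this

theorem T_sq (m : ℕ) (l l' : Fin (2 * m ^ 2 + 1)) :
    (∑ j, BB K t m l j * BB K t m l' j) ^ 2 =
      cw m l * cw m l' * DD K t (th m l - th m l') ^ 2 := by
  rw [T_eq K t ht, mul_pow, mul_pow, Real.sq_sqrt (cw_nonneg m l), Real.sq_sqrt (cw_nonneg m l')]

theorem K_lim (h : S_orth) (i j : Fin (2 * K + 1)) :
    Tendsto (fun m : ℕ => ∑ l, BB K t m l i * BB K t m l j) atTop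
      (𝓝 (if i = j then t (((i : ℕ) + 1) / 2) else 0)) := by
  have h1 := (h i j).const_mul (√(t (((i : ℕ) + 1) / 2)) * √(t (((j : ℕ) + 1) / 2)))
  have e : √(t (((i : ℕ) + 1) / 2)) * √(t (((j : ℕ) + 1) / 2)) *
      (if (i : ℕ) = j then 1 else 0) = if i = j then t (((i : ℕ) + 1) / 2) else 0 := by
    by_cases hij : i = j
    · subst hij
      simp [Real.mul_self_sqrt (ht (((i : ℕ) + 1) / 2)).le]
    · rw [if_neg hij, if_neg (fun h => hij (Fin.ext h)), mul_zero]
  rw [e] at h1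
  refine h1.congr fun m => ?_
  rw [mul_sum]
  refine sum_congr rfl fun l _ => ?_
  unfold BB
  have := Real.mul_self_sqrt (cw_nonneg m l)
  linear_combination (-(√(t (((i : ℕ) + 1) / 2)) * √(t (((j : ℕ) + 1) / 2)) *
    md i (th m l) * md j (th m l))) * this

/-- nondegeneracy -/
theorem nondeg (h : S_orth) : ∀ᶠ m : ℕ in atTop, ∀ c : Fin (2 * K + 1) → ℝ,
    (∀ i, ∑ j, (∑ x, BB K t m x i * BB K t m x j) * c j = 0) → c = 0 := by
  have h1 : Tendsto (fun m : ℕ => (Matrix.of fun i j => ∑ x, BB K t m x i * BB K t m x j).det)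
      atTop (𝓝 (Matrix.of fun i j : Fin (2 * K + 1) =>
        if i = j then t (((i : ℕ) + 1) / 2) else 0).det) := by
    have hc : Continuous fun A : Matrix (Fin (2 * K + 1)) (Fin (2 * K + 1)) ℝ => A.det :=
      Continuous.matrix_det continuous_id
    refine (hc.tendsto _).comp ?_
    exact tendsto_pi_nhds.mpr fun i => tendsto_pi_nhds.mpr fun j => K_lim K t ht h i j
  have h2 : (Matrix.of fun i j : Fin (2 * K + 1) =>
        if i = j then t (((i : ℕ) + 1) / 2) else 0).det ≠ 0 := by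
    have e : (Matrix.of fun i j : Fin (2 * K + 1) =>
        if i = j then t (((i : ℕ) + 1) / 2) else 0) =
        Matrix.diagonal fun i : Fin (2 * K + 1) => t (((i : ℕ) + 1) / 2) := by
      ext i j
      by_cases hij : i = j
      · subst hij; simp
      · simp [hij]
    rw [e, Matrix.det_diagonal]
    exact Finset.prod_ne_zero_iff.mpr fun i _ => (ht _).ne'
  filter_upwards [h1.eventually_ne h2] with m hm c hc
  refine Matrix.eq_zero_of_mulVec_eq_zero hm ?_
  funext i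
  simpa [Matrix.mulVec, dotProduct] using hc i

end Pool.Agent.W9.PL
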