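import Pool.Agent.W9.PL.StateB

/-! The one-site states: proof of `S_state`. -/

open MeasureTheory Finset Filter
open scoped Topology

namespace Pool.Agent.W9.PL

open Pool.Agent.H390R2.LP

variable (K : ℕ) (t : ℕ → ℝ)

/-- bound for the row sums -/
noncomputable def kap (m : ℕ) : ℝ :=
  ∑ k ∈ Icc (-(K : ℤ)) K, ∑ l ∈ Icc (-(K : ℤ)) K, t k.natAbs * t l.natAbs *
    (|∑ p, cw m p * Real.cos (2 * ((k - l : ℤ) : ℝ) * th m p)| +
      |∑ p, cw m p * Real.sin (2 * ((k - l : ℤ) : ℝ) * th m p)|)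

/-- normalisation -/
noncomputable def nn (m : ℕ) : ℝ :=
  ∑ l, ∑ l', cw m l * cw m l' * DD K t (th m l - th m l') ^ 2

theorem kap_lim (h : S_orth) : Tendsto (kap K t) atTop
    (𝓝 (∑ k ∈ Icc (-(K : ℤ)) K, t k.natAbs ^ 2)) := by
  have h1 : Tendsto (kap K t) atTop (𝓝 (∑ k ∈ Icc (-(K : ℤ)) K, ∑ l ∈ Icc (-(K : ℤ)) K,
      t k.natAbs * t l.natAbs * (|if k - l = 0 then (1 : ℝ) else 0| + |0|))) := by
    unfold kap
    exact tendsto_finsetSum _ fun k _ => tendsto_finsetSum _ fun l _ =>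
      ((lim_cos h (k - l)).abs.add (lim_sin h (k - l)).abs).const_mul _
  have e : (∑ k ∈ Icc (-(K : ℤ)) K, ∑ l ∈ Icc (-(K : ℤ)) K,
      t k.natAbs * t l.natAbs * (|if k - l = 0 then (1 : ℝ) else 0| + |0|)) =
      ∑ k ∈ Icc (-(K : ℤ)) K, t k.natAbs ^ 2 := by
    refine sum_congr rfl fun k hk => ?_
    rw [Finset.sum_eq_single k]
    · simp [sq]
    · intro l _ hl
      rw [if_neg (by intro h; apply hl; linarith)]
      simp
    · intro hn
      exact absurd hk hn
  rwa [e] at h1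

variable (ht : ∀ k, 0 < t k)
include ht

theorem row_le (m : ℕ) (l : Fin (2 * m ^ 2 + 1)) :
    ∑ l', cw m l * cw m l' * DD K t (th m l - th m l') ^ 2 ≤ cw m l * kap K t m := by
  have h1 : ∑ l', cw m l * cw m l' * DD K t (th m l - th m l') ^ 2 = cw m l *
      ∑ k ∈ Icc (-(K : ℤ)) K, ∑ j ∈ Icc (-(K : ℤ)) K, t k.natAbs * t j.natAbs *
        (Real.cos (2 * ((k - j : ℤ) : ℝ) * th m l) *
          (∑ p, cw m p * Real.cos (2 * ((k - j : ℤ) : ℝ) * th m p)) +
        Real.sin (2 * ((k - j : ℤ) : ℝ) * th m l) *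
          (∑ p, cw m p * Real.sin (2 * ((k - j : ℤ) : ℝ) * th m p))) := by
    have h2 : ∀ k j : ℤ, t k.natAbs * t j.natAbs *
        (Real.cos (2 * ((k - j : ℤ) : ℝ) * th m l) *
          (∑ p, cw m p * Real.cos (2 * ((k - j : ℤ) : ℝ) * th m p)) +
        Real.sin (2 * ((k - j : ℤ) : ℝ) * th m l) *
          (∑ p, cw m p * Real.sin (2 * ((k - j : ℤ) : ℝ) * th m p))) =
        ∑ p, cw m p * (t k.natAbs * t j.natAbs *
          Real.cos (2 * ((k - j : ℤ) : ℝ) * (th m l - th m p))) := by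
      intro k j
      rw [mul_sum, mul_sum, ← sum_add_distrib, mul_sum]
      refine sum_congr rfl fun p _ => ?_
      rw [mul_sub, Real.cos_sub]
      ring
    simp_rw [h2]
    have h3 : ∑ k ∈ Icc (-(K : ℤ)) K, ∑ j ∈ Icc (-(K : ℤ)) K, ∑ p, cw m p *
        (t k.natAbs * t j.natAbs * Real.cos (2 * ((k - j : ℤ) : ℝ) * (th m l - th m p))) =
        ∑ p, cw m p * DD K t (th m l - th m p) ^ 2 := by
      rw [← sum_product' (Icc (-(K : ℤ)) K) (Icc (-(K : ℤ)) K) (fun k j => ∑ p, cw m p *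
        (t k.natAbs * t j.natAbs * Real.cos (2 * ((k - j : ℤ) : ℝ) * (th m l - th m p)))),
        sum_comm]
      refine sum_congr rfl fun p _ => ?_
      rw [DD_sq, ← sum_product' (Icc (-(K : ℤ)) K) (Icc (-(K : ℤ)) K) (fun k j =>
        (t k.natAbs * t j.natAbs * Real.cos (2 * ((k - j : ℤ) : ℝ) * (th m l - th m p)))),
        mul_sum]
    rw [h3, mul_sum]
    exact sum_congr rfl fun p _ => by ring
  rw [h1]
  refine mul_le_mul_of_nonneg_left ?_ (cw_nonneg m l)
  unfold kap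
  refine sum_le_sum fun k _ => sum_le_sum fun j _ => ?_
  refine mul_le_mul_of_nonneg_left ?_ (mul_nonneg (ht _).le (ht _).le)
  refine add_le_add ?_ ?_
  · refine (le_abs_self _).trans ?_
    rw [abs_mul]
    exact mul_le_of_le_one_left (abs_nonneg _) (Real.abs_cos_le_one _)
  · refine (le_abs_self _).trans ?_
    rw [abs_mul]
    exact mul_le_of_le_one_left (abs_nonneg _) (Real.abs_sin_le_one _)

/-- the majorant of the value -/
noncomputable def UU (r δ η : ℝ) (J m : ℕ) : ℝ :=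
  -Real.log Real.pi + 1 / 2 * Real.log (1 + δ) +
    (-(1 / 2) * Real.log (4 * r) + η - (∑ j ∈ Icc 1 J, r ^ j / j *
      ∑ l, ∑ l', cw m l * cw m l' * (DD K t (th m l - th m l') ^ 2 *
        Real.cos (2 * j * (th m l - th m l')))) / nn K t m) +
    Real.log (kap K t m / nn K t m) +
    ∑ i : Fin (2 * K + 1), Real.negMulLog ((∑ j, (∑ x, BB K t m x i * BB K t m x j) ^ 2) /
      nn K t m)

theorem UU_lim (h : S_orth) (hs : ∑ k ∈ Icc (-(K : ℤ)) K, t k.natAbs ^ 2 = 1) (r δ η : ℝ)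
    (J : ℕ) : Tendsto (UU K t r δ η J) atTop (𝓝 (-Real.log Real.pi + 1 / 2 * Real.log (1 + δ) +
      (-(1 / 2) * Real.log (4 * r) + η - ∑ j ∈ Icc 1 J, r ^ j / j * cc K t j) -
      ∑ k ∈ Icc (-(K : ℤ)) K, t k.natAbs ^ 2 * Real.log (t k.natAbs ^ 2))) := by
  have hn : Tendsto (nn K t) atTop (𝓝 1) := by
    have := lim_norm h K t
    rwa [hs] at this
  have hk : Tendsto (kap K t) atTop (𝓝 1) := by
    have := kap_lim K t h
    rwa [hs] at this
  have h1 : Tendsto (fun m => (∑ j ∈ Icc 1 J, r ^ j / j *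
      ∑ l, ∑ l', cw m l * cw m l' * (DD K t (th m l - th m l') ^ 2 *
        Real.cos (2 * j * (th m l - th m l')))) / nn K t m) atTop
      (𝓝 ((∑ j ∈ Icc 1 J, r ^ j / j * cc K t j) / 1)) := by
    refine Tendsto.div ?_ hn one_ne_zero
    exact tendsto_finsetSum _ fun j _ => (lim_norm_cos h K t j).const_mul _
  have h2 : Tendsto (fun m => Real.log (kap K t m / nn K t m)) atTop (𝓝 (Real.log (1 / 1))) :=
    (hk.div hn one_ne_zero).log (by norm_num)
  have h3 : Tendsto (fun m => ∑ i : Fin (2 * K + 1),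
      Real.negMulLog ((∑ j, (∑ x, BB K t m x i * BB K t m x j) ^ 2) / nn K t m)) atTop
      (𝓝 (∑ i : Fin (2 * K + 1), Real.negMulLog ((∑ j : Fin (2 * K + 1),
        (if i = j then t (((i : ℕ) + 1) / 2) else 0) ^ 2) / 1))) := by
    refine tendsto_finsetSum _ fun i _ => ?_
    refine (Real.continuous_negMulLog.tendsto _).comp ?_
    refine Tendsto.div ?_ hn one_ne_zero
    exact tendsto_finsetSum _ fun j _ => (K_lim K t ht h i j).pow 2
  have e3 : ∑ i : Fin (2 * K + 1), Real.negMulLog ((∑ j : Fin (2 * K + 1),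
        (if i = j then t (((i : ℕ) + 1) / 2) else 0) ^ 2) / 1) =
      -∑ k ∈ Icc (-(K : ℤ)) K, t k.natAbs ^ 2 * Real.log (t k.natAbs ^ 2) := by
    have h4 : ∀ i : Fin (2 * K + 1), Real.negMulLog ((∑ j : Fin (2 * K + 1),
        (if i = j then t (((i : ℕ) + 1) / 2) else 0) ^ 2) / 1) =
        -(t (((i : ℕ) + 1) / 2) ^ 2 * Real.log (t (((i : ℕ) + 1) / 2) ^ 2)) := by
      intro i
      have : (∑ j : Fin (2 * K + 1), (if i = j then t (((i : ℕ) + 1) / 2) else 0) ^ 2) =
          t (((i : ℕ) + 1) / 2) ^ 2 := by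
        rw [Finset.sum_eq_single i]
        · rw [if_pos rfl]
        · intro j _ hj
          rw [if_neg (Ne.symm hj)]
          ring
        · intro hn
          exact absurd (mem_univ _) hn
      rw [this, div_one, Real.negMulLog]
      ring
    rw [sum_congr rfl fun i _ => h4 i, sum_neg_distrib,
      Fin.sum_univ_eq_sum_range (fun i => t ((i + 1) / 2) ^ 2 * Real.log (t ((i + 1) / 2) ^ 2)),
      sum_modes K (fun k => t k ^ 2 * Real.log (t k ^ 2))]
  rw [e3] at h3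
  have h5 := (((h1.const_sub (-(1 / 2) * Real.log (4 * r) + η)).const_add
    (-Real.log Real.pi + 1 / 2 * Real.log (1 + δ))).add h2).add h3
  refine (h5.congr fun m => ?_).trans_eq ?_
  · unfold UU
    ring
  · congr 1
    rw [div_one, div_one, Real.log_one]
    ring

end Pool.Agent.W9.PL
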